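import Pool.Agent.U722.FF.Stm

/-! Package SQ of project FF (helper194): a quadratic with a root modulo lower degree has an integer root. -/

set_option autoImplicit false

namespace Pool.Agent.U194.FFP

open MvPolynomial

lemma hc_mul {σ R : Type*} [CommRing R] (d : ℕ) (a b : MvPolynomial σ R) (ha : a.totalDegree ≤ d)
    (hb : b.totalDegree ≤ d) :
    homogeneousComponent (d + d) (a * b) = homogeneousComponent d a * homogeneousComponent d b := by
  classical
  have hzero : ∀ (f : MvPolynomial σ R) (x : σ →₀ ℕ), f.totalDegree ≤ d → d < x.degree →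
      coeff x f = 0 := by
    intro f x hf hx
    by_contra h
    have h1 := le_totalDegree (mem_support_iff.2 h)
    have h2 : x.degree = x.sum fun _ e => e := rfl
    omega
  ext m
  rw [coeff_homogeneousComponent, coeff_mul, coeff_mul]
  split_ifs with hm
  · refine Finset.sum_congr rfl fun x hx => ?_
    have hxy : x.1 + x.2 = m := Finset.HasAntidiagonal.mem_antidiagonal.1 hx
    have hdeg : x.1.degree + x.2.degree = d + d := by rw [← map_add, hxy, hm]
    rw [coeff_homogeneousComponent, coeff_homogeneousComponent]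
    by_cases h1 : x.1.degree = d
    · have h2 : x.2.degree = d := by omega
      rw [if_pos h1, if_pos h2]
    · rw [if_neg h1, zero_mul]
      rcases lt_or_gt_of_ne h1 with h | h
      · rw [hzero b x.2 hb (by omega), mul_zero]
      · rw [hzero a x.1 ha h, zero_mul]
  · symm
    refine Finset.sum_eq_zero fun x hx => ?_
    have hxy : x.1 + x.2 = m := Finset.HasAntidiagonal.mem_antidiagonal.1 hx
    rw [coeff_homogeneousComponent, coeff_homogeneousComponent]
    by_cases h1 : x.1.degree = d
    · by_cases h2 : x.2.degree = d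
      · exact absurd (by rw [← hxy, map_add, h1, h2]) hm
      · rw [if_neg h2, mul_zero]
    · rw [if_neg h1, zero_mul]

lemma hc_top_ne {σ R : Type*} [CommRing R] (q : MvPolynomial σ R) (hq : q ≠ 0) :
    homogeneousComponent q.totalDegree q ≠ 0 := by
  classical
  intro h
  have hne : q.support.Nonempty := by
    rw [Finset.nonempty_iff_ne_empty, Ne, support_eq_empty]
    exact hq
  obtain ⟨x, hx, hx2⟩ := Finset.exists_mem_eq_sup q.support hne (fun s => s.sum fun _ e => e)
  have h2 : x.degree = q.totalDegree := hx2.symm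
  have h3 : coeff x (homogeneousComponent q.totalDegree q) = coeff x q := by
    rw [coeff_homogeneousComponent, if_pos h2]
  rw [h, coeff_zero] at h3
  exact (mem_support_iff.1 hx) h3.symm

/-- Top forms: a quadratic polynomial with a root modulo lower degree has an integer root. -/
theorem t_SQ : U722.FF.S_SQ := by
  intro n p q τ δ hq hδ hpq hE
  obtain ⟨P, hP⟩ : ∃ P, P = homogeneousComponent q.totalDegree p := ⟨_, rfl⟩
  obtain ⟨Q, hQ⟩ : ∃ Q, Q = homogeneousComponent q.totalDegree q := ⟨_, rfl⟩
  have hQ0 : Q ≠ 0 := hQ ▸ hc_top_ne q hq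
  have h0 : homogeneousComponent (q.totalDegree + q.totalDegree)
      (p ^ 2 - C τ * p * q + C δ * q ^ 2) = 0 := by
    rcases hE with h | h
    · rw [h, map_zero]
    · exact homogeneousComponent_eq_zero _ _ (by omega)
  have h1 : P * P - C τ * (P * Q) + C δ * (Q * Q) = 0 := by
    rw [map_add, map_sub, pow_two, pow_two, mul_assoc, homogeneousComponent_C_mul,
      homogeneousComponent_C_mul, hc_mul _ p p hpq hpq, hc_mul _ p q hpq le_rfl,
      hc_mul _ q q le_rfl le_rfl, ← hP, ← hQ] at h0
    exact h0
  -- the quotient is integral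
  have hK : algebraMap (MvPolynomial (Fin n) ℤ) (FractionRing (MvPolynomial (Fin n) ℤ)) Q ≠ 0 := by
    intro h
    exact hQ0 (IsFractionRing.injective (MvPolynomial (Fin n) ℤ) (FractionRing (MvPolynomial (Fin n) ℤ))
      (by rw [h, map_zero]))
  obtain ⟨x, hx⟩ : ∃ x, x = algebraMap (MvPolynomial (Fin n) ℤ) (FractionRing (MvPolynomial (Fin n) ℤ)) P /
    algebraMap (MvPolynomial (Fin n) ℤ) (FractionRing (MvPolynomial (Fin n) ℤ)) Q := ⟨_, rfl⟩
  have hxe : x ^ 2 - algebraMap (MvPolynomial (Fin n) ℤ) (FractionRing (MvPolynomial (Fin n) ℤ)) (C τ) * x +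
      algebraMap (MvPolynomial (Fin n) ℤ) (FractionRing (MvPolynomial (Fin n) ℤ)) (C δ) = 0 := by
    have h2 := congrArg (algebraMap (MvPolynomial (Fin n) ℤ) (FractionRing (MvPolynomial (Fin n) ℤ))) h1
    simp only [map_add, map_sub, map_mul, map_zero] at h2
    rw [hx]
    field_simp
    linear_combination h2
  have hint : IsIntegral (MvPolynomial (Fin n) ℤ) x := by
    refine ⟨Polynomial.X ^ 2 - Polynomial.C (C τ) * Polynomial.X + Polynomial.C (C δ), ?_, ?_⟩
    · monicity!
    · simp only [Polynomial.eval₂_add, Polynomial.eval₂_sub, Polynomial.eval₂_mul,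
        Polynomial.eval₂_pow, Polynomial.eval₂_X, Polynomial.eval₂_C]
      exact hxe
  obtain ⟨s, hs⟩ := IsIntegrallyClosed.algebraMap_eq_of_integral hint
  have h3 : s ^ 2 - C τ * s + C δ = 0 := by
    apply IsFractionRing.injective (MvPolynomial (Fin n) ℤ) (FractionRing (MvPolynomial (Fin n) ℤ))
    rw [map_add, map_sub, map_mul, map_pow, map_zero, hs]
    exact hxe
  have h4 := congrArg (MvPolynomial.eval (fun _ => (0 : ℤ))) h3
  simp only [map_add, map_sub, map_mul, map_pow, map_zero, eval_C] at h4
  obtain ⟨t, ht⟩ : ∃ t, t = MvPolynomial.eval (fun _ => (0 : ℤ)) s := ⟨_, rfl⟩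
  rw [← ht] at h4
  have h5 : t * (τ - t) = δ := by linear_combination -h4
  have h6 : IsUnit t := by
    have : IsUnit (t * (τ - t)) := by
      rw [h5]
      rcases hδ with h | h <;> rw [h]
      · exact isUnit_one
      · exact isUnit_one.neg
    exact isUnit_of_mul_isUnit_left this
  rcases Int.isUnit_iff.1 h6 with h | h
  · left
    rw [h] at h4
    linear_combination h4
  · right
    rw [h] at h4
    linear_combination h4

end Pool.Agent.U194.FFP
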